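import Pool.Agent.H272R3.DP.Final
import Pool.Agent.H272R3.DP.Box
import Pool.Agent.H272R3.DP.CubeX
import Pool.Agent.H272R3.DP.DiffX
import Pool.Agent.H272R3.DP.ExtX
import Pool.Agent.H272R3.DP.PrimeX
import Pool.Agent.H272R3.DP.ZeroX
import Pool.Agent.H272R3.DP.SplitX
import Pool.Agent.H272R3.DP.SolX

set_option autoImplicit false

namespace Pool.Agent.Results.MP_4f48ca_al.SolubleQuotients

open Cardinal Pointwise Pool.Agent.H272R3.DP

/-- Let `G` be an infinite group whose cardinality is a limit cardinal, and suppose that `G` is a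
countable union of smaller sets, or has a soluble quotient of cardinality `|G|`, or has normal
subgroups `N ≤ M` with `M/N` abelian, `|G/N| = |G|` and `|G/M| < |G|`. Then `G` is partitioned into
countably many sets `A n` such that `A n * (A n)⁻¹` is never left `|G|`-large. -/
theorem result (G : Type) [Group G] [Infinite G] (hlim : ∀ c < #G, Order.succ c < #G)
    (h : (∃ B : ℕ → Set G, (⋃ n, B n) = Set.univ ∧ ∀ n, #(B n) < #G) ∨
      (∃ N : Subgroup G, ∃ _ : N.Normal, Group.IsSolvable (G ⧸ N) ∧ #(G ⧸ N) = #G) ∨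
      (∃ N M : Subgroup G, N.Normal ∧ M.Normal ∧ N ≤ M ∧
        (∀ a ∈ M, ∀ b ∈ M, a * b * a⁻¹ * b⁻¹ ∈ N) ∧ #(G ⧸ N) = #G ∧ #(G ⧸ M) < #G)) :
    ∃ A : ℕ → Set G, (⋃ n, A n) = Set.univ ∧ Pairwise (fun i j => Disjoint (A i) (A j)) ∧
      ∀ n : ℕ, ¬ ∃ F : Set G, #F < #G ∧ F * (A n * (A n)⁻¹) = Set.univ :=
  good_iff (main box taskCube diff_helper584 ext_helper584 prime_helper407 taskZero splitX solX G hlim h)

end Pool.Agent.Results.MP_4f48ca_al.SolubleQuotients
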